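import Mathlib
import Pool.Agent.N754.GF.Tl

/-!
Polynomials in slow functions and units: nonvanishing and size.
-/

set_option autoImplicit false
set_option linter.unusedSectionVars false
set_option linter.overlappingInstances false

open MvPolynomial FF Pool.Agent.W603.LV Filter

namespace Pool.Agent.N608.GF

section coefficients

variable {k θ : Type} [Field k] [Field θ] [Algebra k θ] {a r : ℕ}

/-- the first part of an exponent -/
noncomputable def fp (m : Fin a ⊕ Fin r →₀ ℕ) : Fin a →₀ ℕ :=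
  m.comapDomain Sum.inl Sum.inl_injective.injOn

/-- the second part of an exponent -/
noncomputable def sp (m : Fin a ⊕ Fin r →₀ ℕ) : Fin r →₀ ℕ :=
  m.comapDomain Sum.inr Sum.inr_injective.injOn

theorem fp_apply (m : Fin a ⊕ Fin r →₀ ℕ) (i : Fin a) : fp m i = m (Sum.inl i) := rfl

theorem sp_apply (m : Fin a ⊕ Fin r →₀ ℕ) (i : Fin r) : sp m i = m (Sum.inr i) := rfl

theorem ext_parts {m n : Fin a ⊕ Fin r →₀ ℕ} (h1 : fp m = fp n) (h2 : sp m = sp n) : m = n := by
  ext i
  rcases i with i | i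
  · rw [← fp_apply, ← fp_apply, h1]
  · rw [← sp_apply, ← sp_apply, h2]

theorem T_monomial (σ : Fin a → θ) (m : Fin a ⊕ Fin r →₀ ℕ) (c : k) :
    aeval (Sum.elim (fun i => C (σ i)) X : Fin a ⊕ Fin r → MvPolynomial (Fin r) θ)
      (monomial m c) = monomial (sp m) (aeval σ (monomial (fp m) c)) := by
  rw [aeval_monomial, aeval_monomial, Finsupp.prod_fintype _ _ (fun i => pow_zero _),
    Finsupp.prod_fintype _ _ (fun i => pow_zero _), Fintype.prod_sum_type, monomial_eq,
    Finsupp.prod_fintype _ _ (fun i => pow_zero _), MvPolynomial.algebraMap_apply]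
  simp only [Sum.elim_inl, Sum.elim_inr, fp_apply, sp_apply, map_mul, map_prod, map_pow]
  ring

open Classical in
/-- the coefficient of the polynomial with respect to the second variables -/
noncomputable def part (m' : Fin r →₀ ℕ) (F : MvPolynomial (Fin a ⊕ Fin r) k) :
    MvPolynomial (Fin a) k :=
  ∑ m ∈ F.support, if sp m = m' then monomial (fp m) (coeff m F) else 0

theorem coeff_T (σ : Fin a → θ) (F : MvPolynomial (Fin a ⊕ Fin r) k) (m' : Fin r →₀ ℕ) :
    coeff m' (aeval (Sum.elim (fun i => C (σ i)) X : Fin a ⊕ Fin r → MvPolynomial (Fin r) θ) F) =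
      aeval σ (part m' F) := by
  classical
  conv_lhs => rw [F.as_sum]
  rw [map_sum, coeff_sum]
  unfold part
  rw [map_sum]
  refine Finset.sum_congr rfl fun m _ => ?_
  rw [T_monomial, coeff_monomial]
  split_ifs with h
  · rfl
  · rw [map_zero]

theorem part_ne (F : MvPolynomial (Fin a ⊕ Fin r) k) {m : Fin a ⊕ Fin r →₀ ℕ}
    (hm : m ∈ F.support) : part (sp m) F ≠ 0 := by
  classical
  intro h
  have h1 : coeff (fp m) (part (sp m) F) = coeff m F := by
    unfold part
    rw [coeff_sum, Finset.sum_eq_single m]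
    · rw [if_pos rfl, coeff_monomial, if_pos rfl]
    · intro n _ hn
      split_ifs with h2
      · rw [coeff_monomial, if_neg]
        intro h3
        exact hn (ext_parts h3 h2)
      · rw [coeff_zero]
    · intro h2
      exact absurd hm h2
  rw [h, coeff_zero] at h1
  exact (mem_support_iff.1 hm) h1.symm

theorem mem_T {σ : Fin a → θ} (hσ : AlgebraicIndependent k σ)
    (F : MvPolynomial (Fin a ⊕ Fin r) k) {m : Fin a ⊕ Fin r →₀ ℕ} (hm : m ∈ F.support) :
    sp m ∈ (aeval (Sum.elim (fun i => C (σ i)) X : Fin a ⊕ Fin r → MvPolynomial (Fin r) θ)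
      F).support := by
  rw [mem_support_iff, coeff_T]
  intro h
  exact part_ne F hm ((injective_iff_map_eq_zero _).1 hσ _ h)

end coefficients

theorem abs_sum {k K : Type} [Field k] [Field K] [Algebra k K] [CharZero k] [IsAlgClosed k]
    [IsFF k K] (f : K) (S : Finset (Place k K)) :
    ∑ P ∈ S, |P.ord f| ≤ 2 * hgt k f := by
  classical
  obtain ⟨T, hT⟩ := exists_supp (k := k) (Finset.univ : Finset (Fin 1)) ![f]
  have h1 : ∀ P : Place k K, P.ord f ≠ 0 → P ∈ T ∪ S := fun P h =>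
    Finset.mem_union_left _ (hT 0 (Finset.mem_univ _) P h)
  have h2 : ∀ P : Place k K, P.ord f⁻¹ ≠ 0 → P ∈ T ∪ S := by
    intro P hP
    apply h1
    intro h0
    apply hP
    rw [P.ord_inv, h0, neg_zero]
  calc ∑ P ∈ S, |P.ord f| ≤ ∑ P ∈ T ∪ S, |P.ord f| :=
        Finset.sum_le_sum_of_subset_of_nonneg Finset.subset_union_right fun _ _ _ => abs_nonneg _
    _ = ∑ P ∈ T ∪ S, max (-P.ord f) 0 + ∑ P ∈ T ∪ S, max (-P.ord f⁻¹) 0 := by
        rw [← Finset.sum_add_distrib]
        refine Finset.sum_congr rfl fun P _ => ?_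
        rw [P.ord_inv]
        rcases abs_cases (P.ord f) with h | h <;> omega
    _ = hgt k f + hgt k f⁻¹ := by rw [← hgt_finset f _ h1, ← hgt_finset f⁻¹ _ h2]
    _ = 2 * hgt k f := by rw [hgt_inv]; ring

open Pool.Agent.N754.FV Pool.Agent.N754.GF

theorem inp1 : INP1 := by
  intro k Ω α _ _ _ _ _ D 𝒰 hok hind hmax a r s w hs hse hw
  have hσ := sG_ind hok s hs hse
  have hmem : ∀ F : MvPolynomial (Fin a ⊕ Fin r) k, ∀ m ∈ F.support,
      sp m ∈ (tl hok s hs F).support := fun F m hm => mem_T hσ F hm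
  have hne : ∀ F : MvPolynomial (Fin a ⊕ Fin r) k, F ≠ 0 → tl hok s hs F ≠ 0 := by
    intro F hF h
    obtain ⟨m, hm⟩ := Finset.nonempty_iff_ne_empty.2 (fun h => hF (support_eq_empty.1 h))
    have h1 := hmem F m hm
    rw [h] at h1
    simp at h1
  refine ⟨?_, ?_⟩
  · intro F hF
    have h1 : aeval (fun i => gs D 𝒰 (w i)) (tl hok s hs F) ≠ 0 := by
      intro h
      exact hne F hF ((injective_iff_map_eq_zero _).1 (hind r w hw) _ h)
    rw [← tl_val, ← gs_zero D 𝒰] at h1
    have h2 := mt (gs_eq D 𝒰 _ _).2 h1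
    exact Ultrafilter.eventually_not.2 h2
  · intro F hF S' hS' m hm
    have h1 := hmax r w hw (tl hok s hs F) (hne F hF)
      (fun t => aeval (fun i => (Sum.elim s w : Fin a ⊕ Fin r → ∀ t, D.K t) i t) F)
      (tl_val hok s hs w F) S' hS' (fun t P => sp (m t P)) (fun t P => hmem F _ (hm t P))
    have hM : ∃ M : ℕ, ∀ n ∈ F.support, ∀ i, n i ≤ M := by
      refine ⟨∑ n ∈ F.support, ∑ i, n i, fun n hn i => ?_⟩
      calc n i ≤ ∑ i, n i := Finset.single_le_sum (f := fun i => n i)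
            (fun _ _ => Nat.zero_le _) (Finset.mem_univ i)
        _ ≤ _ := Finset.single_le_sum (f := fun n : Fin a ⊕ Fin r →₀ ℕ => ∑ i, n i)
            (fun _ _ => Nat.zero_le _) hn
    obtain ⟨M, hM⟩ := hM
    have h2 : Slow D 𝒰 fun t => (M : ℝ) * ∑ i : Fin a, 2 * ((hgt k (s i t) : ℤ) : ℝ) := by
      refine Slow.smul (Slow.sum _ _ (fun i _ => ?_) (Ok.nn hok)) _ (by positivity) (Ok.nn hok)
      exact Slow.smul (hs i) 2 (by norm_num) (Ok.nn hok)
    refine Slow.mono (Slow.add h1 h2) (Eventually.of_forall fun t => ?_)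
    have h3 : ∀ P ∈ S' t, ((P.ord (aeval (fun i => (Sum.elim s w : Fin a ⊕ Fin r →
          ∀ t, D.K t) i t) F) : ℝ) -
        ∑ i, (m t P i : ℝ) * (P.ord ((Sum.elim s w : Fin a ⊕ Fin r → ∀ t, D.K t) i t) : ℝ)) ≤
        ((P.ord (aeval (fun i => (Sum.elim s w : Fin a ⊕ Fin r →
          ∀ t, D.K t) i t) F) : ℝ) - ∑ i, (sp (m t P) i : ℝ) * (P.ord (w i t) : ℝ)) +
        ∑ i : Fin a, (M : ℝ) * ((|P.ord (s i t)| : ℤ) : ℝ) := by
      intro P _
      rw [Fintype.sum_sum_type]
      have h4 : ∀ i : Fin a, -((m t P (Sum.inl i) : ℝ) * (P.ord (s i t) : ℝ)) ≤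
          (M : ℝ) * ((|P.ord (s i t)| : ℤ) : ℝ) := by
        intro i
        have h5 : (m t P (Sum.inl i) : ℝ) ≤ M := by exact_mod_cast hM _ (hm t P) _
        have h6 : -((P.ord (s i t) : ℤ) : ℝ) ≤ ((|P.ord (s i t)| : ℤ) : ℝ) := by
          exact_mod_cast neg_le_abs _
        have h7 : (0 : ℝ) ≤ ((|P.ord (s i t)| : ℤ) : ℝ) := by exact_mod_cast abs_nonneg _
        calc -((m t P (Sum.inl i) : ℝ) * (P.ord (s i t) : ℝ))
            = (m t P (Sum.inl i) : ℝ) * (-(P.ord (s i t) : ℝ)) := by ring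
          _ ≤ (m t P (Sum.inl i) : ℝ) * ((|P.ord (s i t)| : ℤ) : ℝ) :=
            mul_le_mul_of_nonneg_left h6 (by positivity)
          _ ≤ _ := mul_le_mul_of_nonneg_right h5 h7
      have h8 : -(∑ i : Fin a, (m t P (Sum.inl i) : ℝ) * (P.ord (s i t) : ℝ)) ≤
          ∑ i : Fin a, (M : ℝ) * ((|P.ord (s i t)| : ℤ) : ℝ) := by
        rw [← Finset.sum_neg_distrib]
        exact Finset.sum_le_sum fun i _ => h4 i
      simp only [Sum.elim_inl, Sum.elim_inr, sp_apply]
      linarith
    refine (Finset.sum_le_sum h3).trans ?_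
    rw [Finset.sum_add_distrib]
    refine add_le_add le_rfl ?_
    rw [Finset.sum_comm, Finset.mul_sum]
    refine Finset.sum_le_sum fun i _ => ?_
    rw [← Finset.mul_sum]
    refine mul_le_mul_of_nonneg_left ?_ (by positivity)
    have h9 := abs_sum (k := k) (s i t) (S' t)
    exact_mod_cast h9

end Pool.Agent.N608.GF
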